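import Pool.Agent.H459R3.NS.Defs

/-!
Definitions for the energy estimate with third derivatives.
-/

open MeasureTheory Set
open scoped ContDiff

namespace H459R3.EU

open H459R3.NS

/-- The third derivative `∂ᵢ ∂ⱼ ∂ₖ f`. -/
noncomputable def d3 (i j k : Fin 3) (f : V → ℝ) : V → ℝ := pd i (pd j (pd k f))

/-- `∑ ∫ (∂ᵢ ∂ⱼ ∂ₖ vₗ)²` over the period cell (sum over `i, j, k, l`). -/
noncomputable def dsq (v : V → V) : ℝ :=
  ∑ l, ∑ i, ∑ j, ∑ k, ∫ x in cube, d3 i j k (fun y => v y l) x ^ 2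

/-- The rate at which the term `(v · ∇) v` of the Euler equations increases `dsq v / 2`:
`-∑ ∫ ∂ᵢ ∂ⱼ ∂ₖ ((v · ∇) vₗ) ∂ᵢ ∂ⱼ ∂ₖ vₗ` (sum over `i, j, k, l`). -/
noncomputable def prod (v : V → V) : ℝ :=
  -∑ l, ∑ i, ∑ j, ∑ k, ∫ x in cube,
    d3 i j k (fun y => ∑ n, v y n * pd n (fun z => v z l) y) x * d3 i j k (fun y => v y l) x

/-- `v` is a comparison field for `u` with the constants `K, lam, β, γ`: `v` is smooth, periodic and
divergence-free; all `|∂ⱼ(u - v)ᵢ| ≤ β`; `dsq (u - v) ≤ K² dsq u`; for a bound `Z` of all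
`|∂ⱼuᵢ|`, `Z² dsq (u - v) ≤ β² dsq u`; and `prod v ≤ lam * prod u + γ * dsq u`. -/
structure Cmp (K lam β γ : ℝ) (u v : V → V) : Prop where
  smooth : SPV v
  div : ∀ x, ∑ i, pd i (fun y => v y i) x = 0
  grad : ∀ x i j, |pd j (fun y => u y i - v y i) x| ≤ β
  rel : dsq (fun y => u y - v y) ≤ K ^ 2 * dsq u
  sup : ∃ Z : ℝ, (∀ x i j, |pd j (fun y => u y i) x| ≤ Z) ∧
    Z ^ 2 * dsq (fun y => u y - v y) ≤ β ^ 2 * dsq u
  prod : prod v ≤ lam * prod u + γ * dsq u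

end H459R3.EU
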