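import Pool.Agent.H459R3.NS.High2
import Pool.Agent.H459R3.EU.Defs

/-!
Algebra and estimates for three derivatives of the convection term.
-/

open MeasureTheory Set Filter Topology
open scoped ContDiff

namespace H459R3.EU

open H459R3.NS

theorem sp_d3 {f : V → ℝ} (hf : SP f) (i j k : Fin 3) : SP (d3 i j k f) := ((hf.pd k).pd j).pd i

theorem pd_add {f g : V → ℝ} (hf : SP f) (hg : SP g) (j : Fin 3) :
    pd j (fun y => f y + g y) = fun y => pd j f y + pd j g y := by
  funext x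
  unfold pd
  have h : HasFDerivAt (fun y => f y + g y) _ x := (hf.diff x).hasFDerivAt.add (hg.diff x).hasFDerivAt
  rw [h.fderiv]
  rfl

theorem d3_add {f g : V → ℝ} (hf : SP f) (hg : SP g) (i j k : Fin 3) :
    d3 i j k (fun y => f y + g y) = fun y => d3 i j k f y + d3 i j k g y := by
  unfold d3
  rw [pd_add hf hg, pd_add (hf.pd k) (hg.pd k), pd_add ((hf.pd k).pd j) ((hg.pd k).pd j)]

theorem pd_mul' {f g : V → ℝ} (hf : SP f) (hg : SP g) (j : Fin 3) :
    pd j (fun y => f y * g y) = fun y => f y * pd j g y + pd j f y * g y :=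
  funext fun x => pd_mul hf hg j x

theorem d3_mul {f g : V → ℝ} (hf : SP f) (hg : SP g) (i j k : Fin 3) (x : V) :
    d3 i j k (fun y => f y * g y) x = f x * d3 i j k g x
      + (pd i f x * pd j (pd k g) x + pd j f x * pd i (pd k g) x + pd k f x * pd i (pd j g) x
      + (pd i (pd j f) x * pd k g x + pd i (pd k f) x * pd j g x + pd j (pd k f) x * pd i g x)
      + d3 i j k f x * g x) := by
  unfold d3
  rw [pd_mul' hf hg, pd_add (hf.mul (hg.pd k)) ((hf.pd k).mul hg), pd_mul' hf (hg.pd k),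
    pd_mul' (hf.pd k) hg,
    pd_add ((hf.mul ((hg.pd k).pd j)).add ((hf.pd j).mul (hg.pd k)))
      (((hf.pd k).mul (hg.pd j)).add (((hf.pd k).pd j).mul hg)),
    pd_add (hf.mul ((hg.pd k).pd j)) ((hf.pd j).mul (hg.pd k)),
    pd_add ((hf.pd k).mul (hg.pd j)) (((hf.pd k).pd j).mul hg)]
  simp only [pd_mul hf ((hg.pd k).pd j), pd_mul (hf.pd j) (hg.pd k), pd_mul (hf.pd k) (hg.pd j),
    pd_mul ((hf.pd k).pd j) hg]
  ring

/-- the derivative of a third derivative -/
theorem d3_pd {f : V → ℝ} (hf : SP f) (i j k n : Fin 3) : d3 i j k (pd n f) = pd n (d3 i j k f) := by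
  unfold d3
  rw [pd_comm hf k n, pd_comm (hf.pd k) j n, pd_comm ((hf.pd k).pd j) i n]

/-- the convection term -/
noncomputable def cv (a b : Fin 3 → V → ℝ) (l : Fin 3) (x : V) : ℝ := ∑ n, a n x * pd n (b l) x

variable {a b c : Fin 3 → V → ℝ}

theorem sp_cv (ha : ∀ i, SP (a i)) (hb : ∀ i, SP (b i)) (l : Fin 3) : SP (cv a b l) :=
  SP.sum fun n _ => (ha n).mul ((hb l).pd n)

theorem d3_sum {f : Fin 3 → V → ℝ} (hf : ∀ i, SP (f i)) (i j k : Fin 3) (x : V) :
    d3 i j k (fun y => ∑ n, f n y) x = ∑ n, d3 i j k (f n) x := by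
  have e1 : pd k (fun y => ∑ n, f n y) = fun y => ∑ n, pd k (f n) y :=
    funext fun y => pd_sum (fun n _ => hf n) k y
  have e2 : pd j (fun y => ∑ n, pd k (f n) y) = fun y => ∑ n, pd j (pd k (f n)) y :=
    funext fun y => pd_sum (fun n _ => (hf n).pd k) j y
  unfold d3
  rw [e1, e2, pd_sum (fun n _ => ((hf n).pd k).pd j) i x]

/-- the commutator of the third derivative with the product -/
noncomputable def cm (i j k : Fin 3) (f g : V → ℝ) (x : V) : ℝ :=
  pd i f x * pd j (pd k g) x + pd j f x * pd i (pd k g) x + pd k f x * pd i (pd j g) x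
      + (pd i (pd j f) x * pd k g x + pd i (pd k f) x * pd j g x + pd j (pd k f) x * pd i g x)
      + d3 i j k f x * g x

theorem sp_cm {f g : V → ℝ} (hf : SP f) (hg : SP g) (i j k : Fin 3) : SP (cm i j k f g) :=
  (((((hf.pd i).mul ((hg.pd k).pd j)).add ((hf.pd j).mul ((hg.pd k).pd i))).add
    ((hf.pd k).mul ((hg.pd j).pd i))).add
    (((((hf.pd j).pd i).mul (hg.pd k)).add (((hf.pd k).pd i).mul (hg.pd j))).add
      (((hf.pd k).pd j).mul (hg.pd i)))).add ((sp_d3 hf i j k).mul hg)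

theorem d3_cv (ha : ∀ i, SP (a i)) (hb : ∀ i, SP (b i)) (l i j k : Fin 3) (x : V) :
    d3 i j k (cv a b l) x = cv a (fun l => d3 i j k (b l)) l x
      + ∑ n, cm i j k (a n) (pd n (b l)) x := by
  unfold cv
  rw [d3_sum (fun n => (ha n).mul ((hb l).pd n)), ← Finset.sum_add_distrib]
  refine Finset.sum_congr rfl fun n _ => ?_
  rw [d3_mul (ha n) ((hb l).pd n), d3_pd (hb l)]
  rfl

/-- bounds for one field -/
structure BD (a : Fin 3 → V → ℝ) (z X : ℝ) : Prop where
  sp : ∀ i, SP (a i)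
  z : ∀ i j x, |pd j (a i) x| ≤ z
  X : ∀ l i j k, nrm (d3 i j k (a l)) ≤ X

theorem BD.z0 {z X : ℝ} (h : BD a z X) : 0 ≤ z := (abs_nonneg _).trans (h.z 0 0 0)

theorem BD.X0 {z X : ℝ} (h : BD a z X) : 0 ≤ X := (nrm_nonneg _).trans (h.X 0 0 0 0)

theorem nrm_two {z X w Y : ℝ} (ha : BD a z X) (hb : BD b w Y) (i j k n l m : Fin 3) :
    nrm (fun x => pd i (pd j (a n)) x * pd k (pd m (b l)) x) ≤ 3 / 2 * (z * Y + w * X) := by
  have hz := ha.z0
  have hX := ha.X0
  have hw := hb.z0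
  have hY := hb.X0
  have k0 := nrm_mul_le' (((ha.sp n).pd j).pd i).cont (((hb.sp l).pd m).pd k).cont
  have k1 : nrm (fun x => pd i (pd j (a n)) x * pd i (pd j (a n)) x) ≤ 3 * (z * X) := by
    refine (nrm_sq_pd_le ((ha.sp n).pd j) i (ha.z n j)).trans ?_
    rw [mul_assoc]
    gcongr
    exact ha.X n i i j
  have k2 : nrm (fun x => pd k (pd m (b l)) x * pd k (pd m (b l)) x) ≤ 3 * (w * Y) := by
    refine (nrm_sq_pd_le ((hb.sp l).pd m) k (hb.z l m)).trans ?_
    rw [mul_assoc]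
    gcongr
    exact hb.X l k k m
  have k3 : nrm (fun x => pd i (pd j (a n)) x * pd k (pd m (b l)) x) ^ 2
      ≤ (3 / 2 * (z * Y + w * X)) ^ 2 := by
    refine k0.trans ((mul_le_mul k1 k2 (nrm_nonneg _) (by positivity)).trans ?_)
    nlinarith [sq_nonneg (z * Y - w * X)]
  exact (pow_le_pow_iff_left₀ (nrm_nonneg _) (by positivity) (by norm_num)).1 k3

theorem nrm_one {z X w Y : ℝ} (ha : BD a z X) (hb : BD b w Y) (i j k n l m : Fin 3) :
    nrm (fun x => pd i (a n) x * pd j (pd k (pd m (b l))) x) ≤ z * Y :=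
  (nrm_mul_le ((ha.sp n).pd i).cont ((((hb.sp l).pd m).pd k).pd j).cont (ha.z n i)).trans
    (mul_le_mul_of_nonneg_left (hb.X l j k m) ha.z0)

theorem nrm_cm {z X w Y : ℝ} (ha : BD a z X) (hb : BD b w Y) (i j k n l : Fin 3) :
    nrm (cm i j k (a n) (pd n (b l))) ≤ 8 * (z * Y + w * X) := by
  have hz := ha.z0
  have hX := ha.X0
  have hw := hb.z0
  have hY := hb.X0
  have s1 := ((ha.sp n).pd i).mul ((((hb.sp l).pd n).pd k).pd j)
  have s2 := ((ha.sp n).pd j).mul ((((hb.sp l).pd n).pd k).pd i)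
  have s3 := ((ha.sp n).pd k).mul ((((hb.sp l).pd n).pd j).pd i)
  have s4 := (((ha.sp n).pd j).pd i).mul (((hb.sp l).pd n).pd k)
  have s5 := (((ha.sp n).pd k).pd i).mul (((hb.sp l).pd n).pd j)
  have s6 := (((ha.sp n).pd k).pd j).mul (((hb.sp l).pd n).pd i)
  have s7 := (sp_d3 (ha.sp n) i j k).mul ((hb.sp l).pd n)
  have t1 := nrm_one ha hb i j k n l n
  have t2 := nrm_one ha hb j i k n l n
  have t3 := nrm_one ha hb k i j n l n
  have t4 := nrm_two ha hb i j k n l n
  have t5 := nrm_two ha hb i k j n l n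
  have t6 := nrm_two ha hb j k i n l n
  have t7 : nrm (fun x => d3 i j k (a n) x * pd n (b l) x) ≤ w * X := by
    have e : (fun x => d3 i j k (a n) x * pd n (b l) x)
        = fun x => pd n (b l) x * d3 i j k (a n) x := funext fun x => mul_comm _ _
    rw [e]
    exact (nrm_mul_le ((hb.sp l).pd n).cont (sp_d3 (ha.sp n) i j k).cont (hb.z l n)).trans
      (mul_le_mul_of_nonneg_left (ha.X n i j k) hw)
  unfold cm
  have u1 := nrm_add_le s1.cont s2.cont
  have u2 := nrm_add_le (s1.add s2).cont s3.cont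
  have u3 := nrm_add_le s4.cont s5.cont
  have u4 := nrm_add_le (s4.add s5).cont s6.cont
  have u5 := nrm_add_le ((s1.add s2).add s3).cont ((s4.add s5).add s6).cont
  have u6 := nrm_add_le (((s1.add s2).add s3).add ((s4.add s5).add s6)).cont s7.cont
  have p1 : 0 ≤ z * Y := mul_nonneg hz hY
  have p2 : 0 ≤ w * X := mul_nonneg hw hX
  linarith

theorem nrm_comm {z X w Y : ℝ} (ha : BD a z X) (hb : BD b w Y) (i j k l : Fin 3) :
    nrm (fun x => ∑ n, cm i j k (a n) (pd n (b l)) x) ≤ 24 * (z * Y + w * X) := by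
  refine (nrm_sum_le fun n => (sp_cm (ha.sp n) ((hb.sp l).pd n) i j k).cont).trans ?_
  refine (Finset.sum_le_sum fun n _ => nrm_cm ha hb i j k n l).trans ?_
  rw [Finset.sum_const, Finset.card_univ, Fintype.card_fin, nsmul_eq_mul]
  push_cast
  linarith

/-- the bilinear form with third derivatives -/
noncomputable def Q3 (F c : Fin 3 → V → ℝ) : ℝ :=
  ∑ l, ∑ i, ∑ j, ∑ k, ∫ x in cube, d3 i j k (F l) x * d3 i j k (c l) x

/-- transport part -/
noncomputable def Tr (a b c : Fin 3 → V → ℝ) : ℝ :=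
  ∑ l, ∑ i, ∑ j, ∑ k, ∫ x in cube, cv a (fun l => d3 i j k (b l)) l x * d3 i j k (c l) x

theorem abs_sub_Tr {z X w Y W : ℝ} (ha : BD a z X) (hb : BD b w Y) (hc : ∀ i, SP (c i))
    (hW : ∀ l i j k, nrm (d3 i j k (c l)) ≤ W) :
    |Q3 (cv a b) c - Tr a b c| ≤ 1944 * ((z * Y + w * X) * W) := by
  have hz := ha.z0
  have hX := ha.X0
  have hw := hb.z0
  have hY := hb.X0
  have hE : ∀ l i j k, |(∫ x in cube, d3 i j k (cv a b l) x * d3 i j k (c l) x)
      - ∫ x in cube, cv a (fun l => d3 i j k (b l)) l x * d3 i j k (c l) x|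
      ≤ 24 * ((z * Y + w * X) * W) := by
    intro l i j k
    have s1 : SP (cv a (fun l => d3 i j k (b l)) l) :=
      sp_cv ha.sp (fun l => sp_d3 (hb.sp l) i j k) l
    have s2 := sp_d3 (hc l) i j k
    have s3 : SP (fun x => ∑ n, cm i j k (a n) (pd n (b l)) x) :=
      SP.sum fun n _ => sp_cm (ha.sp n) ((hb.sp l).pd n) i j k
    have e : ∀ x, d3 i j k (cv a b l) x * d3 i j k (c l) x
        = cv a (fun l => d3 i j k (b l)) l x * d3 i j k (c l) x
          + (∑ n, cm i j k (a n) (pd n (b l)) x) * d3 i j k (c l) x := by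
      intro x
      rw [d3_cv ha.sp hb.sp]
      ring
    simp_rw [e]
    rw [integral_add (s1.mul s2).int (s3.mul s2).int, add_sub_cancel_left]
    refine (abs_int_mul_le s3.cont s2.cont).trans ?_
    have h1 := nrm_comm ha hb i j k l
    calc _ ≤ 24 * (z * Y + w * X) * W :=
          mul_le_mul h1 (hW l i j k) (nrm_nonneg _) (by positivity)
      _ = _ := by ring
  unfold Q3 Tr
  simp_rw [← Finset.sum_sub_distrib]
  have hk : ∀ l i j, |∑ k, ((∫ x in cube, d3 i j k (cv a b l) x * d3 i j k (c l) x)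
      - ∫ x in cube, cv a (fun l => d3 i j k (b l)) l x * d3 i j k (c l) x)|
      ≤ 3 * (24 * ((z * Y + w * X) * W)) := by
    intro l i j
    refine (Finset.abs_sum_le_sum_abs _ _).trans
      ((Finset.sum_le_sum fun k _ => hE l i j k).trans ?_)
    rw [Finset.sum_const, Finset.card_univ, Fintype.card_fin, nsmul_eq_mul]
    push_cast
    exact le_rfl
  have hj : ∀ l i, |∑ j, ∑ k, ((∫ x in cube, d3 i j k (cv a b l) x * d3 i j k (c l) x)
      - ∫ x in cube, cv a (fun l => d3 i j k (b l)) l x * d3 i j k (c l) x)|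
      ≤ 9 * (24 * ((z * Y + w * X) * W)) := by
    intro l i
    refine (Finset.abs_sum_le_sum_abs _ _).trans
      ((Finset.sum_le_sum fun j _ => hk l i j).trans ?_)
    rw [Finset.sum_const, Finset.card_univ, Fintype.card_fin, nsmul_eq_mul]
    push_cast
    linarith
  have hi : ∀ l, |∑ i, ∑ j, ∑ k, ((∫ x in cube, d3 i j k (cv a b l) x * d3 i j k (c l) x)
      - ∫ x in cube, cv a (fun l => d3 i j k (b l)) l x * d3 i j k (c l) x)|
      ≤ 27 * (24 * ((z * Y + w * X) * W)) := by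
    intro l
    refine (Finset.abs_sum_le_sum_abs _ _).trans
      ((Finset.sum_le_sum fun i _ => hj l i).trans ?_)
    rw [Finset.sum_const, Finset.card_univ, Fintype.card_fin, nsmul_eq_mul]
    push_cast
    linarith
  refine (Finset.abs_sum_le_sum_abs _ _).trans ((Finset.sum_le_sum fun l _ => hi l).trans ?_)
  rw [Finset.sum_const, Finset.card_univ, Fintype.card_fin, nsmul_eq_mul]
  push_cast
  linarith

/-- polarised transport identity -/
theorem transport_mul (ha : ∀ i, SP (a i)) (hdiv : ∀ x, ∑ i, pd i (a i) x = 0) {f g : V → ℝ}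
    (hf : SP f) (hg : SP g) :
    (∫ x in cube, (∑ n, a n x * pd n f x) * g x)
      + ∫ x in cube, (∑ n, a n x * pd n g x) * f x = 0 := by
  have h := int_press ha hdiv (hf.mul hg)
  have sf : SP (fun x => ∑ n, a n x * pd n f x) := SP.sum fun n _ => (ha n).mul (hf.pd n)
  have sg : SP (fun x => ∑ n, a n x * pd n g x) := SP.sum fun n _ => (ha n).mul (hg.pd n)
  rw [← integral_add (sf.mul hg).int (sg.mul hf).int]
  rw [← integral_finsetSum _ fun n _ => ((ha n).mul ((hf.mul hg).pd n)).int] at h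
  rw [← h]
  congr 1
  funext x
  simp_rw [pd_mul hf hg]
  rw [Finset.sum_mul, Finset.sum_mul, ← Finset.sum_add_distrib]
  exact Finset.sum_congr rfl fun n _ => by ring

theorem Tr_self (ha : ∀ i, SP (a i)) (hdiv : ∀ x, ∑ i, pd i (a i) x = 0) (hb : ∀ i, SP (b i)) :
    Tr a b b = 0 := by
  unfold Tr
  refine Finset.sum_eq_zero fun l _ => Finset.sum_eq_zero fun i _ => Finset.sum_eq_zero fun j _ =>
    Finset.sum_eq_zero fun k _ => ?_
  have h := transport_mul ha hdiv (sp_d3 (hb l) i j k) (sp_d3 (hb l) i j k)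
  unfold cv
  linarith

theorem Tr_pair (ha : ∀ i, SP (a i)) (hdiv : ∀ x, ∑ i, pd i (a i) x = 0) (hb : ∀ i, SP (b i))
    (hc : ∀ i, SP (c i)) : Tr a b (fun i x => c i x + b i x) + Tr a c b = 0 := by
  unfold Tr
  simp_rw [← Finset.sum_add_distrib]
  refine Finset.sum_eq_zero fun l _ => Finset.sum_eq_zero fun i _ => Finset.sum_eq_zero fun j _ =>
    Finset.sum_eq_zero fun k _ => ?_
  have sb := sp_d3 (hb l) i j k
  have sc := sp_d3 (hc l) i j k
  have h1 := transport_mul ha hdiv sb sb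
  have h2 := transport_mul ha hdiv sb sc
  have e : ∀ x, cv a (fun l => d3 i j k (b l)) l x * d3 i j k (fun x => c l x + b l x) x
      = cv a (fun l => d3 i j k (b l)) l x * d3 i j k (c l) x
        + cv a (fun l => d3 i j k (b l)) l x * d3 i j k (b l) x := by
    intro x
    rw [d3_add (hc l) (hb l)]
    ring
  have sv : SP (cv a (fun l => d3 i j k (b l)) l) := sp_cv ha (fun l => sp_d3 (hb l) i j k) l
  simp_rw [e]
  rw [integral_add (sv.mul sc).int (sv.mul sb).int]
  unfold cv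
  linarith

theorem Q3_add_left {F G : Fin 3 → V → ℝ} (hF : ∀ i, SP (F i)) (hG : ∀ i, SP (G i))
    (hc : ∀ i, SP (c i)) : Q3 (fun l x => F l x + G l x) c = Q3 F c + Q3 G c := by
  unfold Q3
  simp_rw [← Finset.sum_add_distrib]
  refine Finset.sum_congr rfl fun l _ => Finset.sum_congr rfl fun i _ =>
    Finset.sum_congr rfl fun j _ => Finset.sum_congr rfl fun k _ => ?_
  rw [← integral_add ((sp_d3 (hF l) i j k).mul (sp_d3 (hc l) i j k)).int
    ((sp_d3 (hG l) i j k).mul (sp_d3 (hc l) i j k)).int]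
  congr 1
  funext x
  rw [d3_add (hF l) (hG l)]
  ring

theorem Q3_comm (F c : Fin 3 → V → ℝ) : Q3 F c = Q3 c F := by
  unfold Q3
  refine Finset.sum_congr rfl fun l _ => Finset.sum_congr rfl fun i _ =>
    Finset.sum_congr rfl fun j _ => Finset.sum_congr rfl fun k _ => ?_
  congr 1
  funext x
  ring

end H459R3.EU
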