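import Pool.Agent.H459R3.NS.Gen
import Pool.Agent.H459R3.EU.Tri

/-!
Comparison of the production terms of two fields.
-/

open MeasureTheory Set Filter Topology
open scoped ContDiff

namespace H459R3.EU

open H459R3.NS

variable {a b c : Fin 3 → V → ℝ}

theorem BD.add {z X w Y : ℝ} (ha : BD a z X) (hb : BD b w Y) :
    BD (fun l x => a l x + b l x) (z + w) (X + Y) where
  sp := fun l => (ha.sp l).add (hb.sp l)
  z := fun i j x => by
    rw [pd_add (ha.sp i) (hb.sp i)]
    exact (abs_add_le _ _).trans (add_le_add (ha.z i j x) (hb.z i j x))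
  X := fun l i j k => by
    rw [d3_add (ha.sp l) (hb.sp l)]
    exact (nrm_add_le (sp_d3 (ha.sp l) i j k).cont (sp_d3 (hb.sp l) i j k).cont).trans
      (add_le_add (ha.X l i j k) (hb.X l i j k))

theorem pd_sub {f g : V → ℝ} (hf : SP f) (hg : SP g) (j : Fin 3) :
    pd j (fun y => f y - g y) = fun y => pd j f y - pd j g y := by
  funext x
  unfold pd
  have h : HasFDerivAt (fun y => f y - g y) _ x := (hf.diff x).hasFDerivAt.sub (hg.diff x).hasFDerivAt
  rw [h.fderiv]
  rfl

theorem d3_sub {f g : V → ℝ} (hf : SP f) (hg : SP g) (i j k : Fin 3) :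
    d3 i j k (fun y => f y - g y) = fun y => d3 i j k f y - d3 i j k g y := by
  unfold d3
  rw [pd_sub hf hg, pd_sub (hf.pd k) (hg.pd k), pd_sub ((hf.pd k).pd j) ((hg.pd k).pd j)]

theorem nrm_neg' (f : V → ℝ) : nrm (fun x => -f x) = nrm f := by
  unfold nrm
  congr 2
  funext x
  ring

theorem BD.sub {z X w Y : ℝ} (ha : BD a z X) (hb : BD b w Y) :
    BD (fun l x => a l x - b l x) (z + w) (X + Y) where
  sp := fun l => (ha.sp l).sub (hb.sp l)
  z := fun i j x => by
    rw [pd_sub (ha.sp i) (hb.sp i)]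
    exact (abs_sub _ _).trans (add_le_add (ha.z i j x) (hb.z i j x))
  X := fun l i j k => by
    rw [d3_sub (ha.sp l) (hb.sp l)]
    have sb : Continuous fun x => -d3 i j k (b l) x := (sp_d3 (hb.sp l) i j k).cont.neg
    have h := nrm_add_le (sp_d3 (ha.sp l) i j k).cont sb
    rw [nrm_neg'] at h
    have e : (fun y => d3 i j k (a l) y - d3 i j k (b l) y)
        = fun x => d3 i j k (a l) x + -d3 i j k (b l) x := funext fun x => sub_eq_add_neg _ _
    rw [e]
    exact h.trans (add_le_add (ha.X l i j k) (hb.X l i j k))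

theorem Q3_add_right {F : Fin 3 → V → ℝ} (hF : ∀ i, SP (F i)) (hb : ∀ i, SP (b i))
    (hc : ∀ i, SP (c i)) : Q3 F (fun l x => b l x + c l x) = Q3 F b + Q3 F c := by
  rw [Q3_comm, Q3_add_left hb hc hF, Q3_comm b, Q3_comm c]

/-- The production of `v + s` is close to that of `v` if `s` is small. -/
theorem compare {v s : Fin 3 → V → ℝ} {Z X β Y K : ℝ}
    (hu : BD (fun l x => v l x + s l x) Z X) (hs : BD s β Y) (hv : ∀ i, SP (v i))
    (hdv : ∀ x, ∑ i, pd i (v i) x = 0) (hds : ∀ x, ∑ i, pd i (s i) x = 0)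
    (h1 : Z * Y ≤ β * X) (h2 : Y ≤ K * X) (hK : 0 ≤ K) :
    |Q3 (cv (fun l x => v l x + s l x) (fun l x => v l x + s l x)) (fun l x => v l x + s l x)
      - Q3 (cv v v) v| ≤ 3888 * (3 + 3 * K + K ^ 2) * (β * X ^ 2) := by
  set u : Fin 3 → V → ℝ := fun l x => v l x + s l x with hudef
  have hZ := hu.z0
  have hX := hu.X0
  have hβ := hs.z0
  have hY := hs.X0
  have hBv : BD v (Z + β) (X + Y) := by
    have h := hu.sub hs
    have e : (fun l x => u l x - s l x) = v := by
      funext l x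
      simp only [hudef]
      ring
    rwa [e] at h
  -- decomposition
  have hcvu : cv u u = fun l x => (cv v v l x + cv s u l x) + cv v s l x := by
    funext l x
    unfold cv
    rw [← Finset.sum_add_distrib, ← Finset.sum_add_distrib]
    refine Finset.sum_congr rfl fun n _ => ?_
    have e1 : pd n (u l) x = pd n (v l) x + pd n (s l) x := by
      rw [hudef]
      simp only
      rw [pd_add (hv l) (hs.sp l)]
    rw [e1]
    simp only [hudef]
    ring
  have hdec : Q3 (cv u u) u = Q3 (cv v v) v + Q3 (cv v v) s + Q3 (cv s u) u + Q3 (cv v s) u := by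
    rw [hcvu, Q3_add_left (fun l => (sp_cv hv hv l).add (sp_cv hs.sp hu.sp l))
      (fun l => sp_cv hv hs.sp l) hu.sp, Q3_add_left (fun l => sp_cv hv hv l)
      (fun l => sp_cv hs.sp hu.sp l) hu.sp]
    have : Q3 (cv v v) u = Q3 (cv v v) v + Q3 (cv v v) s :=
      Q3_add_right (fun l => sp_cv hv hv l) hv hs.sp
    rw [this]
  have t1 := abs_le.1 (abs_sub_Tr hs hu hu.sp hu.X)
  have t2 := abs_le.1 (abs_sub_Tr hBv hs hu.sp hu.X)
  have t3 := abs_le.1 (abs_sub_Tr hBv hBv hs.sp hs.X)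
  have r1 : Tr s u u = 0 := Tr_self hs.sp hds hu.sp
  have r2 : Tr v s u + Tr v v s = 0 := Tr_pair hv hdv hs.sp hv
  rw [hdec]
  have m1 : (β * X + Z * Y) * X ≤ 2 * (β * X ^ 2) := by nlinarith
  have m2 : ((Z + β) * Y + β * (X + Y)) * X ≤ (2 + 2 * K) * (β * X ^ 2) := by
    have a1 : β * Y ≤ β * (K * X) := mul_le_mul_of_nonneg_left h2 hβ
    have a2 : (Z + β) * Y + β * (X + Y) ≤ (2 + 2 * K) * (β * X) := by nlinarith
    calc _ ≤ (2 + 2 * K) * (β * X) * X := mul_le_mul_of_nonneg_right a2 hX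
      _ = _ := by ring
  have m3 : ((Z + β) * (X + Y) + (Z + β) * (X + Y)) * Y ≤ 2 * (1 + K) ^ 2 * (β * X ^ 2) := by
    have a1 : (Z + β) * Y ≤ (1 + K) * (β * X) := by
      have : β * Y ≤ β * (K * X) := mul_le_mul_of_nonneg_left h2 hβ
      nlinarith
    have a2 : X + Y ≤ (1 + K) * X := by linarith
    have a3 : (Z + β) * Y * (X + Y) ≤ (1 + K) * (β * X) * ((1 + K) * X) :=
      mul_le_mul a1 a2 (by positivity) (by positivity)
    nlinarith
  rw [abs_le]
  constructor
  · nlinarith [t1.1, t2.1, t3.1]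
  · nlinarith [t1.2, t2.2, t3.2]

end H459R3.EU
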