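import Pool.Agent.H459R3.EU.Cmp

/-!
The evolution of the norm of the third derivatives of a smooth periodic solution.
-/

open MeasureTheory Set Filter Topology
open scoped ContDiff

namespace H459R3.EU

open H459R3.NS

section general

variable {T : ℝ}

theorem contDiffOn_d3 {f : ℝ → V → ℝ}
    (hf : ContDiffOn ℝ ∞ (fun z : ℝ × V => f z.1 z.2) (Ico 0 T ×ˢ univ)) (i j k : Fin 3) :
    ContDiffOn ℝ ∞ (fun z : ℝ × V => d3 i j k (f z.1) z.2) (Ico 0 T ×ˢ univ) :=
  contDiffOn_pd (f := fun t => pd j (pd k (f t)))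
    (contDiffOn_pd (f := fun t => pd k (f t)) (contDiffOn_pd hf k) j) i

theorem dt_d3 {f : ℝ → V → ℝ}
    (hf : ContDiffOn ℝ ∞ (fun z : ℝ × V => f z.1 z.2) (Ico 0 T ×ˢ univ)) {t : ℝ}
    (ht : t ∈ Ioo 0 T) (i j k : Fin 3) (x : V) :
    dt (fun s => d3 i j k (f s)) t x = d3 i j k (dt f t) x := by
  have h1 := contDiffOn_pd hf k
  have h2 := contDiffOn_pd (f := fun t => pd k (f t)) h1 j
  have e1 : dt (fun s => pd k (f s)) t = pd k (dt f t) := funext fun y => dt_pd hf ht k y
  have e2 : dt (fun s => pd j (pd k (f s))) t = pd j (dt (fun s => pd k (f s)) t) :=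
    funext fun y => dt_pd (f := fun s => pd k (f s)) h1 ht j y
  have e3 := dt_pd (f := fun s => pd j (pd k (f s))) h2 ht i x
  rw [e2, e1] at e3
  exact e3

end general

theorem d3_smul {f : V → ℝ} (hf : SP f) (c : ℝ) (i j k : Fin 3) :
    d3 i j k (fun y => c * f y) = fun y => c * d3 i j k f y := by
  have e : ∀ {g : V → ℝ}, SP g → ∀ m, pd m (fun y => c * g y) = fun y => c * pd m g y := by
    intro g hg m
    funext x
    unfold pd
    have h : HasFDerivAt (fun y => c * g y) _ x := (hg.diff x).hasFDerivAt.const_mul c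
    rw [h.fderiv]
    rfl
  unfold d3
  rw [e hf, e (hf.pd k), e ((hf.pd k).pd j)]

theorem d3_lap {f : V → ℝ} (hf : SP f) (i j k : Fin 3) : d3 i j k (lap f) = lap (d3 i j k f) := by
  funext x
  have h1 := d3_sum (f := fun n => pd n (pd n f)) (fun n => (hf.pd n).pd n) i j k x
  unfold lap
  rw [h1]
  refine Finset.sum_congr rfl fun n _ => ?_
  rw [d3_pd (hf.pd n), d3_pd hf]

theorem div_d3 {v : Fin 3 → V → ℝ} (hv : ∀ i, SP (v i)) (hdiv : ∀ x, ∑ i, pd i (v i) x = 0)
    (i j k : Fin 3) (x : V) : ∑ l, pd l (d3 i j k (v l)) x = 0 := by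
  have e : ∀ l, pd l (d3 i j k (v l)) x = d3 i j k (pd l (v l)) x := fun l => by
    rw [d3_pd (hv l)]
  simp_rw [e]
  rw [← d3_sum (fun l => (hv l).pd l)]
  have e2 : (fun y => ∑ l, pd l (v l) y) = fun _ => 0 := funext hdiv
  rw [e2]
  unfold d3 pd
  simp

section

variable {ν T : ℝ} {u : ℝ → V → V} {p : ℝ → V → ℝ}

/-- The norm of the fourth derivatives -/
noncomputable def fourth (v : Fin 3 → V → ℝ) : ℝ :=
  ∑ l, ∑ i, ∑ j, ∑ k, ∑ m, ∫ x in cube, pd m (d3 i j k (v l)) x ^ 2

theorem fourth_nonneg (v : Fin 3 → V → ℝ) : 0 ≤ fourth v := by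
  unfold fourth
  exact Finset.sum_nonneg fun l _ => Finset.sum_nonneg fun i _ => Finset.sum_nonneg fun j _ =>
    Finset.sum_nonneg fun k _ => Finset.sum_nonneg fun m _ => integral_nonneg fun _ => sq_nonneg _

theorem dsq_nonneg (v : V → V) : 0 ≤ dsq v := by
  unfold dsq
  exact Finset.sum_nonneg fun l _ => Finset.sum_nonneg fun i _ => Finset.sum_nonneg fun j _ =>
    Finset.sum_nonneg fun k _ => integral_nonneg fun _ => sq_nonneg _

theorem Q3_press {v : Fin 3 → V → ℝ} (hv : ∀ i, SP (v i)) (hdiv : ∀ x, ∑ i, pd i (v i) x = 0)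
    {q : V → ℝ} (hq : SP q) : Q3 (fun l => pd l q) v = 0 := by
  unfold Q3
  have e : ∀ i j k, ∑ l, ∫ x in cube, d3 i j k (pd l q) x * d3 i j k (v l) x = 0 := by
    intro i j k
    have h := int_press (v := fun l => d3 i j k (v l)) (fun l => sp_d3 (hv l) i j k)
      (div_d3 hv hdiv i j k) (sp_d3 hq i j k)
    rw [← h]
    refine Finset.sum_congr rfl fun l _ => ?_
    congr 1
    funext x
    rw [d3_pd hq]
    ring
  rw [Finset.sum_comm]
  refine Finset.sum_eq_zero fun i _ => ?_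
  rw [Finset.sum_comm]
  refine Finset.sum_eq_zero fun j _ => ?_
  rw [Finset.sum_comm]
  exact Finset.sum_eq_zero fun k _ => e i j k

theorem Q3_lap {v : Fin 3 → V → ℝ} (hv : ∀ i, SP (v i)) :
    Q3 (fun l => lap (v l)) v = -fourth v := by
  unfold Q3 fourth
  simp_rw [← Finset.sum_neg_distrib]
  refine Finset.sum_congr rfl fun l _ => Finset.sum_congr rfl fun i _ =>
    Finset.sum_congr rfl fun j _ => Finset.sum_congr rfl fun k _ => ?_
  rw [d3_lap (hv l), int_lap_mul (sp_d3 (hv l) i j k) (sp_d3 (hv l) i j k),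
    ← Finset.sum_neg_distrib]
  refine Finset.sum_congr rfl fun m _ => ?_
  congr 2
  funext x
  ring

theorem Q3_smul_left {F c : Fin 3 → V → ℝ} (hF : ∀ i, SP (F i)) (r : ℝ) :
    Q3 (fun l x => r * F l x) c = r * Q3 F c := by
  unfold Q3
  simp_rw [Finset.mul_sum]
  refine Finset.sum_congr rfl fun l _ => Finset.sum_congr rfl fun i _ =>
    Finset.sum_congr rfl fun j _ => Finset.sum_congr rfl fun k _ => ?_
  rw [← integral_const_mul]
  congr 1
  funext x
  rw [d3_smul (hF l)]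
  ring

theorem sp_smul {f : V → ℝ} (hf : SP f) (c : ℝ) : SP (fun y => c * f y) where
  smooth := contDiff_const.mul hf.smooth
  per := fun j x => by simp only [hf.per j x]

/-- time derivative of the norm of the third derivatives -/
theorem dsq_hasDerivAt (h : IsSol ν T u p) {t : ℝ} (ht : t ∈ Ioo 0 T) :
    HasDerivAt (fun s => dsq (u s))
      (-(2 * ν * fourth (fun i y => u t y i)) - 2 * Q3 (cv (fun i y => u t y i)
        (fun i y => u t y i)) (fun i y => u t y i)) t := by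
  have hI : t ∈ Ico 0 T := ⟨ht.1.le, ht.2⟩
  set v : Fin 3 → V → ℝ := fun i y => u t y i with hv
  have hsp : ∀ i, SP (v i) := fun i => h.sp hI i
  have hdiv : ∀ x, ∑ i, pd i (v i) x = 0 := h.divfree t hI
  set w : Fin 3 → V → ℝ := fun i => dt (fun s y => u s y i) t with hw
  have hwsp : ∀ i, SP (w i) := fun i => h.sp_dt ht i
  have h1 : ∀ l i j k, HasDerivAt (fun s => ∫ x in cube, d3 i j k (fun y => u s y l) x ^ 2)
      (2 * ∫ x in cube, d3 i j k (w l) x * d3 i j k (v l) x) t := by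
    intro l i j k
    have hG : ContDiffOn ℝ ∞ (fun z : ℝ × V => d3 i j k (fun y => u z.1 y l) z.2)
        (Ico 0 T ×ˢ univ) := contDiffOn_d3 (f := fun s y => u s y l) (h.smooth_c l) i j k
    have hG1 : ContDiffOn ℝ 1 (fun z : ℝ × V => d3 i j k (fun y => u z.1 y l) z.2)
        (Ioo 0 T ×ˢ univ) :=
      mono_Ioo (f := fun s x => d3 i j k (fun y => u s y l) x) hG (by norm_cast)
    have hF : ContDiffOn ℝ 1 (fun z : ℝ × V => d3 i j k (fun y => u z.1 y l) z.2 ^ 2)
        (Ioo 0 T ×ˢ univ) := hG1.pow 2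
    have key := hasDerivAt_int (F := fun s x => d3 i j k (fun y => u s y l) x ^ 2) hF ht
    refine key.congr_deriv ?_
    rw [← integral_const_mul]
    congr 1
    funext x
    have h2 : HasDerivAt (fun s => d3 i j k (fun y => u s y l) x) (d3 i j k (w l) x) t := by
      have h3 := hasDerivAt_slice (F := fun s x => d3 i j k (fun y => u s y l) x) hG1 ht x
      have h4 := dt_d3 (f := fun s y => u s y l) (h.smooth_c l) ht i j k x
      rw [NS.dt_eq (f := fun s => d3 i j k (fun y => u s y l)) hG ht x] at h4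
      rwa [h4] at h3
    have h3 : HasDerivAt (fun s => d3 i j k (fun y => u s y l) x ^ 2) _ t := h2.pow 2
    rw [h3.deriv]
    simp only [hv]
    push_cast
    ring
  have h2 : HasDerivAt (fun s => dsq (u s))
      (∑ l, ∑ i, ∑ j, ∑ k, 2 * ∫ x in cube, d3 i j k (w l) x * d3 i j k (v l) x) t :=
    HasDerivAt.fun_sum fun l _ => HasDerivAt.fun_sum fun i _ => HasDerivAt.fun_sum fun j _ =>
      HasDerivAt.fun_sum fun k _ => h1 l i j k
  refine h2.congr_deriv ?_
  have e0 : ∑ l, ∑ i, ∑ j, ∑ k, 2 * ∫ x in cube, d3 i j k (w l) x * d3 i j k (v l) x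
      = 2 * Q3 w v := by
    unfold Q3
    simp_rw [Finset.mul_sum]
  rw [e0]
  have e1 : w = fun l x => (ν * lap (v l) x + (-1) * cv v v l x) + (-1) * pd l (p t) x := by
    funext l x
    have := h.dt_eq ht l x
    simp only [hw]
    rw [this]
    unfold NS.conv cv
    ring
  have s1 : ∀ l, SP (fun x => ν * lap (v l) x) := fun l => sp_smul (hsp l).lap ν
  have s2 : ∀ l, SP (fun x => (-1) * cv v v l x) := fun l => sp_smul (sp_cv hsp hsp l) _
  have s3 : ∀ l, SP (fun x => (-1) * pd l (p t) x) := fun l => sp_smul ((h.sp_p hI).pd l) _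
  rw [e1, Q3_add_left (fun l => (s1 l).add (s2 l)) s3 hsp, Q3_add_left s1 s2 hsp,
    Q3_smul_left (F := fun l => lap (v l)) (fun l => (hsp l).lap),
    Q3_smul_left (F := fun l => cv v v l) (fun l => sp_cv hsp hsp l),
    Q3_smul_left (F := fun l => pd l (p t)) (fun l => (h.sp_p hI).pd l),
    Q3_press hsp hdiv (h.sp_p hI), Q3_lap hsp]
  ring

theorem dsq_continuousOn (h : IsSol ν T u p) :
    ContinuousOn (fun s => dsq (u s)) (Ico 0 T) := by
  unfold dsq
  refine continuousOn_finsetSum _ fun l _ => continuousOn_finsetSum _ fun i _ =>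
    continuousOn_finsetSum _ fun j _ => continuousOn_finsetSum _ fun k _ => ?_
  exact continuousOn_int (F := fun s x => d3 i j k (fun y => u s y l) x ^ 2)
    ((contDiffOn_d3 (f := fun s y => u s y l) (h.smooth_c l) i j k).continuousOn.pow 2)

end

/-- A Gronwall inequality. -/
theorem gron {y D g : ℝ → ℝ} {t B : ℝ} (ht : 0 ≤ t) (hy0 : ∀ s, 0 ≤ y s)
    (hyc : ContinuousOn y (Icc 0 t)) (hD : ∀ s ∈ Ioo 0 t, HasDerivAt y (D s) s)
    (hg0 : ∀ s ∈ Ioo 0 t, 0 ≤ g s) (hgi : IntegrableOn g (Icc 0 t))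
    (hgB : ∫ s in (0 : ℝ)..t, g s ≤ B) (hd : ∀ s ∈ Ioo 0 t, D s ≤ g s * y s) :
    y t ≤ y 0 * Real.exp B := by
  have hlog : ∀ ε : ℝ, 0 < ε → y t + ε ≤ (y 0 + ε) * Real.exp B := by
    intro ε hε
    have hpos : ∀ s, 0 < y s + ε := fun s => by linarith [hy0 s]
    have hc : ContinuousOn (fun s => Real.log (y s + ε)) (Icc 0 t) :=
      (hyc.add continuousOn_const).log fun s _ => (hpos s).ne'
    have hd' : ∀ s ∈ Ioo 0 t, HasDerivWithinAt (fun s => Real.log (y s + ε))
        (D s / (y s + ε)) (Ioi s) s := by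
      intro s hs
      exact (((hD s hs).add_const ε).log (hpos s).ne').hasDerivWithinAt
    have hle : ∀ s ∈ Ioo 0 t, D s / (y s + ε) ≤ g s := by
      intro s hs
      rw [div_le_iff₀ (hpos s)]
      refine (hd s hs).trans ?_
      exact mul_le_mul_of_nonneg_left (by linarith) (hg0 s hs)
    have h1 := intervalIntegral.sub_le_integral_of_hasDeriv_right_of_le ht hc hd' hgi hle
    have h2 : Real.log (y t + ε) ≤ Real.log (y 0 + ε) + B := by linarith
    calc y t + ε = Real.exp (Real.log (y t + ε)) := (Real.exp_log (hpos t)).symm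
      _ ≤ Real.exp (Real.log (y 0 + ε) + B) := Real.exp_le_exp.2 h2
      _ = (y 0 + ε) * Real.exp B := by rw [Real.exp_add, Real.exp_log (hpos 0)]
  have hlim1 : Tendsto (fun ε : ℝ => y t + ε) (𝓝[>] 0) (𝓝 (y t + 0)) :=
    (tendsto_const_nhds.add tendsto_id).mono_left nhdsWithin_le_nhds
  have hlim2 : Tendsto (fun ε : ℝ => (y 0 + ε) * Real.exp B) (𝓝[>] 0)
      (𝓝 ((y 0 + 0) * Real.exp B)) :=
    ((tendsto_const_nhds.add tendsto_id).mul_const _).mono_left nhdsWithin_le_nhds
  have := le_of_tendsto_of_tendsto hlim1 hlim2 (by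
    filter_upwards [self_mem_nhdsWithin] with ε hε
    exact hlog ε hε)
  simpa using this

end H459R3.EU
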