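import Pool.Agent.H459R3.EU.Evo

/-!
The criterion.
-/

open MeasureTheory Set Filter Topology
open scoped ContDiff

namespace H459R3.EU

open H459R3.NS

theorem prod_eq (v : V → V) :
    prod v = -Q3 (cv (fun i y => v y i) (fun i y => v y i)) (fun i y => v y i) := rfl

theorem nrm_le_third (v : V → V) (l i j k : Fin 3) :
    nrm (d3 i j k (fun y => v y l)) ≤ Real.sqrt (dsq v) := by
  unfold nrm dsq
  refine Real.sqrt_le_sqrt ?_
  have h4 : ∫ x in cube, d3 i j k (fun y => v y l) x ^ 2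
      ≤ ∑ k, ∫ x in cube, d3 i j k (fun y => v y l) x ^ 2 :=
    Finset.single_le_sum (f := fun k => ∫ x in cube, d3 i j k (fun y => v y l) x ^ 2)
      (fun _ _ => integral_nonneg fun _ => sq_nonneg _) (Finset.mem_univ k)
  have h3 : ∑ k, ∫ x in cube, d3 i j k (fun y => v y l) x ^ 2
      ≤ ∑ j, ∑ k, ∫ x in cube, d3 i j k (fun y => v y l) x ^ 2 :=
    Finset.single_le_sum (f := fun j => ∑ k, ∫ x in cube, d3 i j k (fun y => v y l) x ^ 2)
      (fun _ _ => Finset.sum_nonneg fun _ _ => integral_nonneg fun _ => sq_nonneg _)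
      (Finset.mem_univ j)
  have h2 : ∑ j, ∑ k, ∫ x in cube, d3 i j k (fun y => v y l) x ^ 2
      ≤ ∑ i, ∑ j, ∑ k, ∫ x in cube, d3 i j k (fun y => v y l) x ^ 2 :=
    Finset.single_le_sum (f := fun i => ∑ j, ∑ k, ∫ x in cube, d3 i j k (fun y => v y l) x ^ 2)
      (fun _ _ => Finset.sum_nonneg fun _ _ => Finset.sum_nonneg fun _ _ =>
        integral_nonneg fun _ => sq_nonneg _) (Finset.mem_univ i)
  have h1 : ∑ i, ∑ j, ∑ k, ∫ x in cube, d3 i j k (fun y => v y l) x ^ 2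
      ≤ ∑ l, ∑ i, ∑ j, ∑ k, ∫ x in cube, d3 i j k (fun y => v y l) x ^ 2 :=
    Finset.single_le_sum
      (f := fun l => ∑ i, ∑ j, ∑ k, ∫ x in cube, d3 i j k (fun y => v y l) x ^ 2)
      (fun _ _ => Finset.sum_nonneg fun _ _ => Finset.sum_nonneg fun _ _ =>
        Finset.sum_nonneg fun _ _ => integral_nonneg fun _ => sq_nonneg _) (Finset.mem_univ l)
  exact h4.trans (h3.trans (h2.trans h1))

theorem spv_sp {v : V → V} (h : SPV v) (i : Fin 3) : SP (fun y => v y i) where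
  smooth := (contDiff_pi.1 h.1) i
  per := fun j x => by simp only [h.2 j x]

theorem Cmp.prod_le {K lam β γ : ℝ} {u v : V → V} (h : Cmp K lam β γ u v) (hK : 0 ≤ K)
    (hu : ∀ i, SP (fun y => u y i)) (hdiv : ∀ x, ∑ i, pd i (fun y => u y i) x = 0) :
    (1 - lam) * EU.prod u ≤ (3888 * (3 + 3 * K + K ^ 2) * β + γ) * dsq u := by
  obtain ⟨Z, hZ, hZY⟩ := h.sup
  have hβ0 : 0 ≤ β := (abs_nonneg _).trans (h.grad 0 0 0)
  have hZ0 : 0 ≤ Z := (abs_nonneg _).trans (hZ 0 0 0)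
  have hv : ∀ i, SP (fun y => v y i) := fun i => spv_sp h.smooth i
  set vv : Fin 3 → V → ℝ := fun i y => v y i with hvv
  set uu : Fin 3 → V → ℝ := fun i y => u y i with huu
  set ss : Fin 3 → V → ℝ := fun i y => u y i - v y i with hss
  have hs : ∀ i, SP (ss i) := fun i => (hu i).sub (hv i)
  have hus : (fun l x => vv l x + ss l x) = uu := by
    funext l x
    simp only [hvv, huu, hss]
    ring
  set X := Real.sqrt (dsq u) with hX
  set Y := Real.sqrt (dsq fun y => u y - v y) with hY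
  have hX0 : 0 ≤ X := Real.sqrt_nonneg _
  have hY0 : 0 ≤ Y := Real.sqrt_nonneg _
  have hX2 : X ^ 2 = dsq u := Real.sq_sqrt (dsq_nonneg _)
  have hY2 : Y ^ 2 = dsq fun y => u y - v y := Real.sq_sqrt (dsq_nonneg _)
  have hBu : BD uu Z X := ⟨hu, fun i j x => hZ x i j, fun l i j k => nrm_le_third u l i j k⟩
  have hBs : BD ss β Y := ⟨hs, fun i j x => h.grad x i j,
    fun l i j k => nrm_le_third (fun y => u y - v y) l i j k⟩
  have hds : ∀ x, ∑ i, pd i (ss i) x = 0 := by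
    intro x
    have e : ∀ i, pd i (ss i) x = pd i (uu i) x - pd i (vv i) x := fun i => by
      have := congrFun (pd_sub (hu i) (hv i) i) x
      exact this
    simp_rw [e]
    rw [Finset.sum_sub_distrib]
    have := hdiv x
    have := h.div x
    simp only [huu, hvv]
    linarith
  have h1 : Z * Y ≤ β * X := by
    refine abs_le_of_sq_le_sq' (a := Z * Y) (b := β * X) ?_ (by positivity) |>.2
    rw [mul_pow, mul_pow, hX2, hY2]
    exact hZY
  have h2 : Y ≤ K * X := by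
    refine abs_le_of_sq_le_sq' (a := Y) (b := K * X) ?_ (by positivity) |>.2
    rw [mul_pow, hX2, hY2]
    exact h.rel
  have key := compare (v := vv) (s := ss) (Z := Z) (X := X) (β := β) (Y := Y) (K := K)
    (by rw [hus]; exact hBu) hBs hv h.div hds h1 h2 hK
  rw [hus, hX2] at key
  have k1 := (abs_le.1 key).1
  have k2 := h.prod
  rw [prod_eq v, prod_eq u] at k2
  rw [prod_eq u]
  nlinarith

theorem main {K lam : ℝ} (hK : 0 ≤ K) (hlam : lam < 1) {ν T : ℝ} {u : ℝ → V → V} {p : ℝ → V → ℝ}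
    (hν : 0 ≤ ν) (h : IsSol ν T u p) {β γ : ℝ → ℝ} (hγ0 : ∀ t ∈ Ioo 0 T, 0 ≤ γ t)
    (hβi : IntegrableOn β (Ioo 0 T)) (hγi : IntegrableOn γ (Ioo 0 T))
    (hc : ∀ t ∈ Ioo 0 T, ∃ v, Cmp K lam (β t) (γ t) (u t) v) :
    ∀ t ∈ Ico 0 T, dsq (u t) ≤ dsq (u 0) * Real.exp (2 / (1 - lam)
      * ∫ s in Ioo 0 T, (3888 * (3 + 3 * K + K ^ 2) * β s + γ s)) := by
  intro t ht
  have hl : 0 < 1 - lam := by linarith
  have hβ0 : ∀ s ∈ Ioo 0 T, 0 ≤ β s := fun s hs => by
    obtain ⟨v, hv⟩ := hc s hs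
    exact (abs_nonneg _).trans (hv.grad 0 0 0)
  set c : ℝ := 3888 * (3 + 3 * K + K ^ 2) with hcdef
  have hc0 : 0 ≤ c := by positivity
  set g : ℝ → ℝ := fun s => 2 / (1 - lam) * (c * β s + γ s) with hg
  have hgi : IntegrableOn g (Ioo 0 T) := ((hβi.const_mul c).add hγi).const_mul _
  have hg0 : ∀ s ∈ Ioo 0 T, 0 ≤ g s := fun s hs => by
    have a1 := hβ0 s hs
    have a2 := hγ0 s hs
    have : 0 ≤ c * β s + γ s := by positivity
    exact mul_nonneg (by positivity) this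
  have hgi' : IntegrableOn g (Icc 0 t) := by
    rw [integrableOn_Icc_iff_integrableOn_Ioc, integrableOn_Ioc_iff_integrableOn_Ioo]
    exact hgi.mono_set (Ioo_subset_Ioo_right ht.2.le)
  have hB : ∫ s in (0 : ℝ)..t, g s ≤ 2 / (1 - lam) * ∫ s in Ioo 0 T, (c * β s + γ s) := by
    rw [intervalIntegral.integral_of_le ht.1, integral_Ioc_eq_integral_Ioo, ← integral_const_mul]
    refine setIntegral_mono_set hgi ?_ (Ioo_subset_Ioo_right ht.2.le).eventuallyLE
    exact (ae_restrict_iff' measurableSet_Ioo).2 (Eventually.of_forall fun s hs => hg0 s hs)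
  refine gron (g := g) ht.1 (fun s => dsq_nonneg (u s))
    ((dsq_continuousOn h).mono fun s hs => ⟨hs.1, hs.2.trans_lt ht.2⟩)
    (fun s hs => dsq_hasDerivAt h ⟨hs.1, hs.2.trans ht.2⟩)
    (fun s hs => hg0 s ⟨hs.1, hs.2.trans ht.2⟩) hgi' hB fun s hs => ?_
  have hs' : s ∈ Ioo 0 T := ⟨hs.1, hs.2.trans ht.2⟩
  have hI : s ∈ Ico 0 T := ⟨hs'.1.le, hs'.2⟩
  obtain ⟨v, hv⟩ := hc s hs'
  have k := hv.prod_le hK (fun i => h.sp hI i) (h.divfree s hI)
  have f0 : 0 ≤ 2 * ν * fourth (fun i y => u s y i) :=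
    mul_nonneg (by positivity) (fourth_nonneg _)
  rw [prod_eq] at k
  have e : g s * dsq (u s) = 2 / (1 - lam) * ((c * β s + γ s) * dsq (u s)) := by
    simp only [hg]
    ring
  rw [e, div_mul_eq_mul_div, le_div_iff₀ hl]
  nlinarith

end H459R3.EU
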