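import Pool.Agent.H459R3.NS.Iso
import Pool.Agent.H459R3.EU.Main

/-!
The isometries of the torus preserve the production of third derivatives.
-/

open MeasureTheory Set Filter Topology
open scoped ContDiff

namespace H459R3.EU

open H459R3.NS

theorem pd_smul {f : V → ℝ} (hf : SP f) (c : ℝ) (m : Fin 3) :
    pd m (fun y => c * f y) = fun y => c * pd m f y := by
  funext x
  unfold pd
  have h : HasFDerivAt (fun y => c * f y) _ x := (hf.diff x).hasFDerivAt.const_mul c
  rw [h.fderiv]
  rfl

theorem pd_smul_comp (g : Iso) {f : V → ℝ} (hf : SP f) (c : ℝ) (m : Fin 3) :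
    pd m (fun y => c * f (g.inv y))
      = fun y => (c * (g.sign m : ℝ)) * pd (g.perm m) f (g.inv y) := by
  rw [pd_smul (g.comp_sp hf)]
  funext x
  rw [g.pd_comp hf m x]
  ring

theorem d3_smul_comp (g : Iso) {f : V → ℝ} (hf : SP f) (c : ℝ) (i j k : Fin 3) :
    d3 i j k (fun y => c * f (g.inv y))
      = fun y => (c * (g.sign k : ℝ) * (g.sign j : ℝ) * (g.sign i : ℝ))
        * d3 (g.perm i) (g.perm j) (g.perm k) f (g.inv y) := by
  unfold d3
  rw [pd_smul_comp g hf, pd_smul_comp g (hf.pd _), pd_smul_comp g ((hf.pd _).pd _)]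

theorem sum4_perm (σ : Equiv.Perm (Fin 3)) (Φ : Fin 3 → Fin 3 → Fin 3 → Fin 3 → ℝ) :
    ∑ l, ∑ i, ∑ j, ∑ k, Φ (σ l) (σ i) (σ j) (σ k) = ∑ l, ∑ i, ∑ j, ∑ k, Φ l i j k := by
  rw [← Equiv.sum_comp σ (fun l => ∑ i, ∑ j, ∑ k, Φ l i j k)]
  refine Finset.sum_congr rfl fun l _ => ?_
  rw [← Equiv.sum_comp σ (fun i => ∑ j, ∑ k, Φ (σ l) i j k)]
  refine Finset.sum_congr rfl fun i _ => ?_
  rw [← Equiv.sum_comp σ (fun j => ∑ k, Φ (σ l) (σ i) j k)]
  refine Finset.sum_congr rfl fun j _ => ?_
  exact Equiv.sum_comp σ (fun k => Φ (σ l) (σ i) (σ j) k)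

variable (g : Iso) {u : V → V}

theorem sign4 (l i j k : Fin 3) :
    ((g.sign l : ℝ) * (g.sign k : ℝ) * (g.sign j : ℝ) * (g.sign i : ℝ))
      * ((g.sign l : ℝ) * (g.sign k : ℝ) * (g.sign j : ℝ) * (g.sign i : ℝ)) = 1 := by
  have s1 := g.sign_mul l
  have s2 := g.sign_mul i
  have s3 := g.sign_mul j
  have s4 := g.sign_mul k
  calc _ = ((g.sign l : ℝ) * g.sign l) * ((g.sign i : ℝ) * g.sign i)
        * ((g.sign j : ℝ) * g.sign j) * ((g.sign k : ℝ) * g.sign k) := by ring
    _ = 1 := by rw [s1, s2, s3, s4]; norm_num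

theorem push_comp (l : Fin 3) :
    (fun y => (-g.push u y) l) = fun y => (-(g.sign l : ℝ)) * u (g.inv y) (g.perm l) := by
  funext y
  simp only [Pi.neg_apply, Iso.push]
  ring

theorem dsq_push (hu : SPV u) : dsq (fun x => -g.push u x) = dsq u := by
  unfold dsq
  have e : ∀ l i j k, ∫ x in cube, d3 i j k (fun y => (-g.push u y) l) x ^ 2
      = ∫ x in cube, d3 (g.perm i) (g.perm j) (g.perm k) (fun y => u y (g.perm l)) x ^ 2 := by
    intro l i j k
    have hs : SP (d3 (g.perm i) (g.perm j) (g.perm k) (fun y => u y (g.perm l))) :=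
      sp_d3 (hu.sp (g.perm l)) _ _ _
    have h2 := g.integral_comp (hs.mul hs)
    simp_rw [sq]
    rw [← h2]
    congr 1
    funext x
    rw [push_comp g l, d3_smul_comp g (f := fun y => u y (g.perm l)) (hu.sp (g.perm l))]
    have s := sign4 g l i j k
    linear_combination (d3 (g.perm i) (g.perm j) (g.perm k) (fun y => u y (g.perm l)) (g.inv x)
      * d3 (g.perm i) (g.perm j) (g.perm k) (fun y => u y (g.perm l)) (g.inv x)) * s
  simp_rw [e]
  exact sum4_perm g.perm fun l i j k => ∫ x in cube, d3 i j k (fun y => u y l) x ^ 2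

theorem conv_push (hu : SPV u) (l : Fin 3) :
    (fun y => ∑ n, (-g.push u y) n * pd n (fun z => (-g.push u z) l) y)
      = fun y => (g.sign l : ℝ) * (fun z => ∑ n, u z n * pd n (fun w => u w (g.perm l)) z)
        (g.inv y) := by
  funext y
  have e : ∀ n, (-g.push u y) n * pd n (fun z => (-g.push u z) l) y
      = (g.sign l : ℝ) * (u (g.inv y) (g.perm n)
        * pd (g.perm n) (fun w => u w (g.perm l)) (g.inv y)) := by
    intro n
    rw [push_comp g l, pd_smul_comp g (f := fun y => u y (g.perm l)) (hu.sp (g.perm l))]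
    simp only [Pi.neg_apply, Iso.push]
    have s := g.sign_mul n
    linear_combination ((g.sign l : ℝ) * u (g.inv y) (g.perm n)
        * pd (g.perm n) (fun w => u w (g.perm l)) (g.inv y)) * s
  simp_rw [e]
  rw [← Finset.mul_sum]
  congr 1
  exact Equiv.sum_comp g.perm
    (fun n => u (g.inv y) n * pd n (fun w => u w (g.perm l)) (g.inv y))

theorem prod_push (hu : SPV u) : prod (fun x => -g.push u x) = -prod u := by
  unfold prod
  have hc : ∀ l, SP (fun z => ∑ n, u z n * pd n (fun w => u w l) z) := fun l =>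
    SP.sum fun n _ => (hu.sp n).mul ((hu.sp l).pd n)
  have e : ∀ l i j k, ∫ x in cube,
      d3 i j k (fun y => ∑ n, (-g.push u y) n * pd n (fun z => (-g.push u z) l) y) x
        * d3 i j k (fun y => (-g.push u y) l) x
      = -∫ x in cube, d3 (g.perm i) (g.perm j) (g.perm k)
          (fun y => ∑ n, u y n * pd n (fun z => u z (g.perm l)) y) x
        * d3 (g.perm i) (g.perm j) (g.perm k) (fun y => u y (g.perm l)) x := by
    intro l i j k
    have hs : SP (d3 (g.perm i) (g.perm j) (g.perm k) (fun y => u y (g.perm l))) :=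
      sp_d3 (hu.sp (g.perm l)) _ _ _
    have hs' := sp_d3 (hc (g.perm l)) (g.perm i) (g.perm j) (g.perm k)
    have h2 := g.integral_comp (hs'.mul hs)
    rw [← h2, ← integral_neg]
    congr 1
    funext x
    rw [conv_push g hu l, push_comp g l,
      d3_smul_comp g (f := fun z => ∑ n, u z n * pd n (fun w => u w (g.perm l)) z)
        (hc (g.perm l)),
      d3_smul_comp g (f := fun y => u y (g.perm l)) (hu.sp (g.perm l))]
    have s := sign4 g l i j k
    linear_combination (-(d3 (g.perm i) (g.perm j) (g.perm k)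
      (fun z => ∑ n, u z n * pd n (fun w => u w (g.perm l)) z) (g.inv x)
      * d3 (g.perm i) (g.perm j) (g.perm k) (fun y => u y (g.perm l)) (g.inv x))) * s
  simp_rw [e]
  simp only [Finset.sum_neg_distrib]
  congr 2
  exact sum4_perm g.perm fun l i j k => ∫ x in cube,
    d3 i j k (fun y => ∑ n, u y n * pd n (fun z => u z l) y) x * d3 i j k (fun y => u y l) x

theorem div_push (hu : SPV u) (hdiv : ∀ x, ∑ i, pd i (fun y => u y i) x = 0) (x : V) :
    ∑ i, pd i (fun y => (-g.push u y) i) x = 0 := by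
  have e : ∀ i, pd i (fun y => (-g.push u y) i) x
      = -(pd (g.perm i) (fun y => u y (g.perm i)) (g.inv x)) := by
    intro i
    rw [push_comp g i, pd_smul_comp g (f := fun y => u y (g.perm i)) (hu.sp (g.perm i))]
    have s := g.sign_mul i
    linear_combination (-(pd (g.perm i) (fun y => u y (g.perm i)) (g.inv x))) * s
  simp_rw [e]
  rw [Finset.sum_neg_distrib, neg_eq_zero]
  have h := hdiv (g.inv x)
  rw [← Equiv.sum_comp g.perm] at h
  exact h

theorem dsq_sub_le {v : V → V} (hu : SPV u) (hv : SPV v) :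
    dsq (fun y => u y - v y) ≤ 2 * dsq u + 2 * dsq v := by
  unfold dsq
  simp_rw [Finset.mul_sum, ← Finset.sum_add_distrib]
  refine Finset.sum_le_sum fun l _ => Finset.sum_le_sum fun i _ => Finset.sum_le_sum fun j _ =>
    Finset.sum_le_sum fun k _ => ?_
  have s1 := sp_d3 (hu.sp l) i j k
  have s2 := sp_d3 (hv.sp l) i j k
  rw [← integral_const_mul, ← integral_const_mul]
  have i1 : IntegrableOn (fun x => 2 * d3 i j k (fun y => u y l) x ^ 2) cube :=
    integrableOn_cube (continuous_const.mul (s1.cont.pow 2))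
  have i2 : IntegrableOn (fun x => 2 * d3 i j k (fun y => v y l) x ^ 2) cube :=
    integrableOn_cube (continuous_const.mul (s2.cont.pow 2))
  rw [← integral_add i1 i2]
  have e : d3 i j k (fun y => (u y - v y) l)
      = fun y => d3 i j k (fun y => u y l) y - d3 i j k (fun y => v y l) y :=
    d3_sub (hu.sp l) (hv.sp l) i j k
  have i3 : IntegrableOn (fun x => d3 i j k (fun y => (u y - v y) l) x ^ 2) cube := by
    rw [e]
    exact integrableOn_cube ((s1.cont.sub s2.cont).pow 2)
  refine integral_mono i3 (i1.add i2) fun x => ?_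
  rw [e]
  simp only
  nlinarith [sq_nonneg (d3 i j k (fun y => u y l) x + d3 i j k (fun y => v y l) x)]

/-- `-g_* u` is a comparison field for `u`. -/
theorem cmp_push (hu : SPV u) (hdiv : ∀ x, ∑ i, pd i (fun y => u y i) x = 0) {β Z : ℝ}
    (hZ : ∀ x i j, |pd j (fun y => u y i) x| ≤ Z)
    (hβ : ∀ x i j, |pd j (fun y => u y i + g.push u y i) x| ≤ β)
    (hr : Z ^ 2 * dsq (fun y => u y + g.push u y) ≤ β ^ 2 * dsq u) :
    Cmp 2 (-1) β 0 u (fun x => -g.push u x) where
  smooth := g.spv_push hu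
  div := div_push g hu hdiv
  grad := fun x i j => by
    have e : (fun y => u y i - (-g.push u y) i) = fun y => u y i + g.push u y i := by
      funext y
      simp only [Pi.neg_apply]
      ring
    show |pd j (fun y => u y i - (-g.push u y) i) x| ≤ β
    rw [e]
    exact hβ x i j
  rel := by
    have h := dsq_sub_le hu (g.spv_push hu)
    rw [dsq_push g hu] at h
    linarith
  sup := by
    refine ⟨Z, hZ, ?_⟩
    have e : (fun y => u y - -g.push u y) = fun y => u y + g.push u y := by
      funext y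
      rw [sub_neg_eq_add]
    rw [e]
    exact hr
  prod := by
    rw [prod_push g hu]
    linarith

end H459R3.EU
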